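import Mathlib

set_option autoImplicit false

namespace Pool.Agent.Results.MP_9bfa98_an.Tan

open Set Filter Topology Complex

/-- Nevanlinna functions, meromorphic on the whole plane. -/
def Nevanlinna (m : ℂ → ℂ) : Prop :=
  MeromorphicOn m univ ∧ (∀ z : ℂ, 0 < z.im → 0 < (m z).im) ∧ ∀ z : ℂ, z.im < 0 → (m z).im < 0

/-- The number of zeros of `f` in `U`, with multiplicity. -/
noncomputable def zeroCount (f : ℂ → ℂ) (U : Set ℂ) : ℕ :=
  ∑ᶠ z ∈ U, (meromorphicOrderAt f z).untop₀.toNat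

/-- The number of poles of `f` in `U`, with multiplicity. -/
noncomputable def poleCount (f : ℂ → ℂ) (U : Set ℂ) : ℕ :=
  ∑ᶠ z ∈ U, (-(meromorphicOrderAt f z).untop₀).toNat

lemma tan_im (z : ℂ) : (tan z).im = Real.sinh z.im * Real.cosh z.im / normSq (cos z) := by
  rw [tan_eq_sin_div_cos, div_im, ← sub_div]
  congr 1
  rw [cos_eq z, sin_eq z]
  simp only [← ofReal_sin, ← ofReal_cos, ← ofReal_sinh, ← ofReal_cosh, add_im, mul_im, ofReal_re,
    ofReal_im, mul_re, I_re, I_im, sub_re, add_re, sub_im]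
  linear_combination Real.sinh z.im * Real.cosh z.im * Real.sin_sq_add_cos_sq z.re

lemma cos_ne {z : ℂ} (h : z.im ≠ 0) : 0 < normSq (cos z) := by
  rw [normSq_pos]
  intro h1
  obtain ⟨k, rfl⟩ := cos_eq_zero_iff.1 h1
  simp at h

lemma cos_ev (N : ℝ) (z : ℂ) : ∀ᶠ w in 𝓝[≠] z, cos (N * w) ≠ 0 := by
  have h : AnalyticOnNhd ℂ (fun w => cos (N * w)) univ := fun w _ => by fun_prop
  refine (h z trivial).eventually_eq_zero_or_eventually_ne_zero.resolve_left fun h1 => ?_
  simpa using h.eqOn_zero_of_preconnected_of_eventuallyEq_zero isPreconnected_univ trivial h1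
    (mem_univ 0)

lemma ord_cos (N : ℝ) (hN : 0 < N) (z : ℂ) : ∃ n : ℕ,
    meromorphicOrderAt (fun w => cos (N * w)) z = n ∧ (cos (N * z) = 0 → 1 ≤ n) := by
  have h : AnalyticAt ℂ (fun w => cos (N * w)) z := by fun_prop
  have h1 := (meromorphicOrderAt_ne_top_iff_eventually_ne_zero h.meromorphicAt).2 (cos_ev N z)
  rw [h.meromorphicOrderAt_eq] at h1 ⊢
  have h2 := h.analyticOrderAt_ne_zero
  cases h3 : analyticOrderAt (fun w => cos (N * w)) z with
  | top => simp [h3] at h1
  | coe n =>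
    refine ⟨n, by simp, fun h4 => Nat.one_le_iff_ne_zero.2 fun h5 => h2.2 h4 ?_⟩
    simp [h3, h5]

lemma zero_count (N : ℝ) (hN : 0 < N) (U : Set ℂ) :
    zeroCount (fun w => tan (N * w) - I) U = 0 := by
  refine finsum_mem_of_eqOn_zero fun z _ => ?_
  have h1 : (fun w => tan (N * w) - I) =ᶠ[𝓝[≠] z]
      (fun w => -I * exp (N * w * I)) * (fun w => cos (N * w))⁻¹ := by
    filter_upwards [cos_ev N z] with w hw
    simp only [Pi.mul_apply, Pi.inv_apply, tan_eq_sin_div_cos, exp_mul_I]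
    field_simp
    linear_combination (sin (N * w)) * I_sq
  obtain ⟨n, h2, -⟩ := ord_cos N hN z
  simp only [Pi.zero_apply]
  rw [meromorphicOrderAt_congr h1, meromorphicOrderAt_mul_of_ne_zero (by fun_prop) (by simp),
    meromorphicOrderAt_inv, h2]
  simp [← WithTop.coe_natCast, ← WithTop.LinearOrderedAddCommGroup.coe_neg]

lemma pole_count (N : ℝ) (hN : 0 < N) (a b : ℝ) (U : Set ℂ) (hU : Bornology.IsBounded U)
    (hab : ofReal '' Ioo a b ⊆ U) :
    (b - a) / Real.pi * N - 2 ≤ poleCount (fun w => tan (N * w)) U := by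
  have hpi := Real.pi_pos
  let pt : ℤ → ℂ := fun k => (((2 * k + 1) * Real.pi / (2 * N) : ℝ) : ℂ)
  have hN' : (N : ℂ) ≠ 0 := by exact_mod_cast hN.ne'
  have hS : ∀ z, cos (N * z) = 0 ↔ z ∈ range pt := fun z => by
    rw [cos_eq_zero_iff]
    refine exists_congr fun k => ?_
    simp only [pt]
    push_cast
    constructor
    · intro h; field_simp at h ⊢; exact h.symm
    · intro h; rw [← h]; field_simp
  have hinj : Function.Injective pt := fun k l h => by
    have h1 := ofReal_injective h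
    field_simp at h1
    exact_mod_cast (by linarith : (k : ℝ) = l)
  have hfin : (U ∩ range pt).Finite := by
    obtain ⟨R, hR⟩ := hU.exists_norm_le
    refine ((finite_Icc (-⌈R * N⌉) ⌈R * N⌉).image pt).subset ?_
    rintro _ ⟨h, k, rfl⟩
    refine mem_image_of_mem _ ?_
    have h1 := hR _ h
    simp only [pt, norm_real, Real.norm_eq_abs] at h1
    rw [abs_div, abs_mul, abs_of_pos hpi, abs_of_pos (by positivity : 0 < 2 * N),
      div_le_iff₀ (by positivity)] at h1
    have h2 : |2 * (k : ℝ) + 1| ≤ R * N := by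
      nlinarith [Real.pi_gt_three, abs_nonneg (2 * (k : ℝ) + 1)]
    have h3 := (abs_le.1 (h2.trans (Int.le_ceil _)))
    have h4 : -⌈R * N⌉ ≤ 2 * k + 1 := by exact_mod_cast h3.1
    have h5 : 2 * k + 1 ≤ ⌈R * N⌉ := by exact_mod_cast h3.2
    constructor <;> omega
  have e : (fun w => tan (N * w)) = (fun w => sin (N * w)) * (fun w => cos (N * w))⁻¹ := by
    funext w; simp [tan_eq_sin_div_cos, div_eq_mul_inv]
  rw [poleCount, finsum_mem_inter_support_eq' _ U (U ∩ range pt) (fun z hz => ⟨fun h => ⟨h, ?_⟩,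
    fun h => h.1⟩), finsum_mem_eq_finite_toFinset_sum _ hfin]
  · have h1 : (Finset.Ico ⌈a * N / Real.pi⌉ ⌊b * N / Real.pi⌋).card ≤ hfin.toFinset.card := by
      refine Finset.card_le_card_of_injOn pt (fun k hk => ?_) hinj.injOn
      simp only [Finset.coe_Ico, mem_Ico] at hk
      have h2 := Int.ceil_le.1 hk.1
      have h3 := Int.le_floor.1 (Int.add_one_le_of_lt hk.2)
      rw [div_le_iff₀ hpi] at h2
      rw [le_div_iff₀ hpi] at h3
      push_cast at h3
      simp only [Finite.coe_toFinset]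
      refine ⟨hab ⟨_, ⟨?_, ?_⟩, rfl⟩, k, rfl⟩
      · rw [lt_div_iff₀ (by positivity)]; nlinarith
      · rw [div_lt_iff₀ (by positivity)]; nlinarith
    have h2 := Finset.card_nsmul_le_sum hfin.toFinset
      (fun z => (-(meromorphicOrderAt (fun w => tan (N * w)) z).untop₀).toNat) 1 fun z hz => by
        have h3 := (hS z).2 (hfin.mem_toFinset.1 hz).2
        obtain ⟨n, h4, h5⟩ := ord_cos N hN z
        rw [e, meromorphicOrderAt_mul_of_ne_zero (by fun_prop) (by
          rcases cos_eq_zero_iff_sin_eq.1 h3 with h | h <;> simp [h]), meromorphicOrderAt_inv, h4]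
        simpa [← WithTop.coe_natCast, ← WithTop.LinearOrderedAddCommGroup.coe_neg] using h5 h3
    rw [Int.card_Ico] at h1
    rw [smul_eq_mul, mul_one] at h2
    have h3 := Int.toNat_le.1 (h1.trans h2)
    have h4 := (Int.cast_le (R := ℝ)).2 h3
    rw [Int.cast_sub, Int.cast_natCast] at h4
    have h5 := Int.lt_floor_add_one (b * N / Real.pi)
    have h6 := Int.ceil_lt_add_one (a * N / Real.pi)
    have h7 : (b - a) / Real.pi * N = b * N / Real.pi - a * N / Real.pi := by ring
    linarith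
  · by_contra h1
    apply hz
    have h2 : AnalyticAt ℂ (fun w => tan (N * w)) z := by
      rw [e]
      exact AnalyticAt.mul (by fun_prop) (AnalyticAt.inv (by fun_prop) fun h => h1 ((hS z).1 h))
    simpa using h2.meromorphicOrderAt_nonneg

theorem result : ∃ (m : ℕ → ℂ → ℂ) (g : ℂ → ℂ), (∀ j, Nevanlinna (m j)) ∧ Differentiable ℂ g ∧
    ∀ a b : ℝ, a < b → Tendsto (fun j => poleCount (m j) (ofReal '' Ioo a b)) atTop atTop ∧
      ∀ U : Set ℂ, Bornology.IsBounded U → ofReal '' Ioo a b ⊆ U →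
        Tendsto (fun j => |(zeroCount (fun z => m j z - g z) U : ℤ) - poleCount (m j) U|)
          atTop atTop := by
  have hN : ∀ j : ℕ, (0 : ℝ) < j + 1 := fun j => by positivity
  have key : ∀ a b : ℝ, a < b → ∀ U : Set ℂ, Bornology.IsBounded U → ofReal '' Ioo a b ⊆ U →
      Tendsto (fun j : ℕ => poleCount (fun w => tan (((j + 1 : ℝ) : ℂ) * w)) U) atTop atTop := by
    intro a b hab U h1 h2
    rw [← tendsto_natCast_atTop_iff (R := ℝ)]
    refine tendsto_atTop_mono (fun j => pole_count _ (hN j) a b U h1 h2) ?_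
    exact tendsto_atTop_add_const_right _ (-2) ((tendsto_atTop_add_const_right _ 1
      tendsto_natCast_atTop_atTop).const_mul_atTop (div_pos (sub_pos.2 hab) Real.pi_pos))
  refine ⟨fun j w => tan (((j + 1 : ℝ) : ℂ) * w), fun _ => I, fun j => ⟨fun z _ => ?_,
    fun z hz => ?_, fun z hz => ?_⟩, differentiable_const _, fun a b hab => ⟨key a b hab _ ?_
      subset_rfl, fun U h1 h2 => ?_⟩⟩
  · simp only [tan_eq_sin_div_cos]
    fun_prop
  · have : 0 < (((j + 1 : ℝ) : ℂ) * z).im := by rw [im_ofReal_mul]; exact mul_pos (hN j) hz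
    rw [tan_im]
    exact div_pos (mul_pos (Real.sinh_pos_iff.2 this) (Real.cosh_pos _)) (cos_ne this.ne')
  · have : (((j + 1 : ℝ) : ℂ) * z).im < 0 := by
      rw [im_ofReal_mul]; exact mul_neg_of_pos_of_neg (hN j) hz
    rw [tan_im]
    exact div_neg_of_neg_of_pos (mul_neg_of_neg_of_pos (Real.sinh_neg_iff.2 this) (Real.cosh_pos _))
      (cos_ne this.ne)
  · exact isometry_ofReal.lipschitz.isBounded_image (Metric.isBounded_Ioo a b)
  · simp only [zero_count _ (hN _), Nat.cast_zero, zero_sub, abs_neg, Nat.abs_cast]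
    exact tendsto_natCast_atTop_atTop.comp (key a b hab U h1 h2)

end Pool.Agent.Results.MP_9bfa98_an.Tan
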